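import Pool.Agent.H466.HE.Asm3
import Pool.Agent.H466.HE.F2
import Pool.Agent.H466.HE.F4

/-!
# The backward flow (uniform law and local law), for the flow
-/

set_option autoImplicit false

open Complex MeasureTheory Set

namespace Pool.Agent.H466.HG.BK

open Pool.Agent.H466.HE Pool.Agent.H466.HN

/-- number of the zeros in `E`, with multiplicity -/
def ZF (lam : ℝ) (E : Set ℂ) (a b : ℝ) : Prop :=
  (∀ S : Finset ℂ, (∀ s ∈ S, flow lam s = 0 ∧ s ∈ E) →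
    ∑ s ∈ S, (analyticOrderNatAt (flow lam) s : ℝ) ≤ b) ∧
  ∃ S : Finset ℂ, (∀ s ∈ S, flow lam s = 0 ∧ s ∈ E) ∧
    a ≤ ∑ s ∈ S, (analyticOrderNatAt (flow lam) s : ℝ)

def BF (T : ℝ) : Set ℂ := {s | T ≤ s.im ∧ s.im ≤ 2 * T}

noncomputable def NF (T : ℝ) : ℝ := T * Real.log T / (2 * Real.pi)

/-- the backward flow -/
theorem backward (g1 : S_UNI) (g2 : S_TUB) (g3 : S_LLW) :
    ∀ ε W : ℝ, 0 < ε → 0 < W → ∃ A₀ δ T₀ : ℝ, 0 < δ ∧
      ∀ T lam : ℝ, T₀ ≤ T → A₀ ≤ lam * Real.log T ^ 2 → lam * Real.log T ≤ δ →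
      ZF (-lam) (BF T) ((1 - ε) * NF T) ((1 + ε) * NF T) ∧
      (∀ v ∈ Icc (0 : ℝ) 1,
        ZF (-lam) {s | s ∈ BF T ∧ |s.re - 1 / 2| ≤ v * (lam * Real.log T)}
          ((v - ε) * NF T) ((v + ε) * NF T)) ∧
      ∃ B : Set ℝ, volume B ≤ ENNReal.ofReal (ε * T) ∧ ∀ t ∈ Icc T (2 * T), t ∉ B →
        (∀ s : ℂ, flow (-lam) s = 0 → |s.im - t| ≤ W * (lam * Real.log T) →
          |s.re - 1 / 2| ≤ (1 + ε) * (lam * Real.log T)) ∧
        ∀ v ∈ Icc (0 : ℝ) 1, ZF (-lam)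
          {s | |s.im - t| ≤ W * (lam * Real.log T) ∧ |s.re - 1 / 2| ≤ v * (lam * Real.log T)}
          ((v - ε) * (W * (lam * Real.log T ^ 2) / Real.pi))
          ((v + ε) * (W * (lam * Real.log T ^ 2) / Real.pi)) := by
  intro ε W hε hW
  obtain ⟨A1, δ1, T1, hA1, hδ1, hT1, h1⟩ := uni_flow g1 ε hε
  obtain ⟨A2, δ2, T2, hA2, hδ2, hT2, h2⟩ := tub_flow g2 ε hε
  obtain ⟨A3, δ3, T3, hA3, hδ3, hT3, h3⟩ := llw_flow g3 ε W hε hW
  refine ⟨max A1 (max A2 A3), min δ1 (min δ2 δ3), max T1 (max T2 T3),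
    lt_min hδ1 (lt_min hδ2 hδ3), fun T lam hT hA hδ => ?_⟩
  have t1 : T1 ≤ T := (le_max_left _ _).trans hT
  have t2 : T2 ≤ T := ((le_max_left _ _).trans (le_max_right _ _)).trans hT
  have t3 : T3 ≤ T := ((le_max_right _ _).trans (le_max_right _ _)).trans hT
  have hL : 0 < Real.log T := Real.log_pos (by linarith)
  have d1 : lam ≤ δ1 / Real.log T := by
    rw [le_div_iff₀ hL]; exact hδ.trans (min_le_left _ _)
  have d2 : lam ≤ δ2 / Real.log T := by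
    rw [le_div_iff₀ hL]; exact hδ.trans ((min_le_right _ _).trans (min_le_left _ _))
  have d3 : lam ≤ δ3 / Real.log T := by
    rw [le_div_iff₀ hL]; exact hδ.trans ((min_le_right _ _).trans (min_le_right _ _))
  have a1 : A1 / Real.log T ^ 2 ≤ lam := by
    rw [div_le_iff₀ (by positivity)]; exact (le_max_left _ _).trans hA
  have a2 : A2 / Real.log T ^ 2 ≤ lam := by
    rw [div_le_iff₀ (by positivity)]
    exact ((le_max_left _ _).trans (le_max_right _ _)).trans hA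
  have a3 : A3 / Real.log T ^ 2 ≤ lam := by
    rw [div_le_iff₀ (by positivity)]
    exact ((le_max_right _ _).trans (le_max_right _ _)).trans hA
  have k1 := h1 T lam t1 a1 d1
  refine ⟨⟨fun S hS => h2 T lam t2 a2 d2 S fun s hs => ?_, ?_⟩, fun v hv => ?_, ?_⟩
  · exact ⟨(hS s hs).1, (hS s hs).2.1, (hS s hs).2.2⟩
  · obtain ⟨-, Z, hZ, hZ2⟩ := k1 1 zero_le_one le_rfl
    refine ⟨Z, fun s hs => ⟨(hZ s hs).1, (hZ s hs).2.2⟩, hZ2⟩
  · obtain ⟨b1, Z, hZ, hZ2⟩ := k1 v hv.1 hv.2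
    refine ⟨fun S hS => b1 S fun s hs => ?_, Z, fun s hs => ?_, hZ2⟩
    · obtain ⟨c1, ⟨c2, c3⟩, c4⟩ := hS s hs
      exact ⟨c1, c4, c2, c3⟩
    · obtain ⟨c1, c2, c3, c4⟩ := hZ s hs
      exact ⟨c1, ⟨c3, c4⟩, c2⟩
  · obtain ⟨B, hB, h⟩ := h3 T lam t3 a3 d3
    refine ⟨B, hB, fun t ht htB => ⟨(h t ht htB).1, fun v hv => ?_⟩⟩
    obtain ⟨b1, Z, hZ, hZ2⟩ := (h t ht htB).2 v hv.1 hv.2
    refine ⟨fun S hS => b1 S fun s hs => ?_, Z, fun s hs => ?_, hZ2⟩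
    · obtain ⟨c1, c2, c3⟩ := hS s hs
      exact ⟨c1, c3, c2⟩
    · obtain ⟨c1, c2, c3⟩ := hZ s hs
      exact ⟨c1, c3, c2⟩


end Pool.Agent.H466.HG.BK
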